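import Pool.Agent.helper36.HK.Spec

/-! # Row fi:RCS: the Leibniz recursion for the Dirichlet series of `cv g h` -/

set_option autoImplicit false

namespace Pool.Agent.HK

open Finset Pool.Agent.FI

/-- `(log n)^j ≤ C n^ε` -/
private theorem RCS_log_pow_le (j : ℕ) {ε : ℝ} (hε : 0 < ε) : ∃ C : ℝ, 0 < C ∧ ∀ n : ℕ, n ≠ 0 →
    Real.log n ^ j ≤ C * (n : ℝ) ^ ε := by
  rcases Nat.eq_zero_or_pos j with rfl | hj
  · refine ⟨1, one_pos, fun n hn => ?_⟩
    rw [pow_zero, one_mul]
    exact Real.one_le_rpow (by exact_mod_cast Nat.one_le_iff_ne_zero.2 hn) hε.le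
  · refine ⟨(j / ε) ^ j, by positivity, fun n _ => ?_⟩
    have h1 := Real.log_natCast_le_rpow_div n (show 0 < ε / j by positivity)
    have h2 : 0 ≤ Real.log n := Real.log_natCast_nonneg n
    calc Real.log n ^ j ≤ ((n : ℝ) ^ (ε / j) / (ε / j)) ^ j := pow_le_pow_left₀ h2 h1 j
      _ = (j / ε) ^ j * (n : ℝ) ^ ε := by
        rw [div_pow, ← Real.rpow_natCast ((n : ℝ) ^ (ε / j)), ← Real.rpow_mul (by positivity)]
        have : ε / j * (j : ℝ) = ε := by field_simp
        rw [this, div_pow, div_pow]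
        field_simp

private theorem RCS_summable_of_log {f : ℕ → ℂ} {j : ℕ} (hf : ∀ n : ℕ, ‖f n‖ ≤ Real.log n ^ j) {s : ℂ}
    (hs : 1 < s.re) : LSeriesSummable f s := by
  obtain ⟨C, hC, h⟩ := RCS_log_pow_le j (show 0 < (s.re - 1) / 2 by linarith)
  refine LSeriesSummable_of_le_const_mul_rpow (x := (s.re + 1) / 2) (by linarith) ⟨C, fun n hn => ?_⟩
  refine (hf n).trans ((h n hn).trans (le_of_eq ?_))
  congr 2
  ring

private theorem RCS_s1 (g : ℕ → ℂ) (hg : CM g) (j : ℕ) {s : ℂ} (hs : 1 < s.re) :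
    LSeriesSummable (fun n => g n * (Real.log n : ℂ) ^ j) s := by
  refine RCS_summable_of_log (j := j) (fun n => ?_) hs
  rw [norm_mul, norm_pow, Complex.norm_real, Real.norm_of_nonneg (Real.log_natCast_nonneg n)]
  exact mul_le_of_le_one_left (pow_nonneg (Real.log_natCast_nonneg n) _) (hg.2.2.2 n)

private theorem RCS_s2 (g : ℕ → ℂ) (hg : CM g) (j : ℕ) {s : ℂ} (hs : 1 < s.re) :
    LSeriesSummable (fun n => (ArithmeticFunction.vonMangoldt n : ℂ) * g n * (Real.log n : ℂ) ^ j) s := by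
  refine RCS_summable_of_log (j := j + 1) (fun n => ?_) hs
  rw [norm_mul, norm_mul, norm_pow, Complex.norm_real, Complex.norm_real,
    Real.norm_of_nonneg (Real.log_natCast_nonneg n),
    Real.norm_of_nonneg ArithmeticFunction.vonMangoldt_nonneg, pow_succ']
  apply mul_le_mul_of_nonneg_right _ (pow_nonneg (Real.log_natCast_nonneg n) _)
  calc ArithmeticFunction.vonMangoldt n * ‖g n‖ ≤ ArithmeticFunction.vonMangoldt n * 1 :=
        mul_le_mul_of_nonneg_left (hg.2.2.2 n) ArithmeticFunction.vonMangoldt_nonneg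
    _ ≤ Real.log n := by
        rw [mul_one]
        exact ArithmeticFunction.vonMangoldt_le_log

/-- the binomial theorem for the logarithms in a convolution -/
private theorem RCS_pt (F G : ℕ → ℂ) (j n : ℕ) (hn : n ≠ 0) :
    (∑ p ∈ n.divisorsAntidiagonal, F p.1 * G p.2) * (Real.log n : ℂ) ^ j =
      ∑ i ∈ range (j + 1), (Nat.choose j i : ℂ) * ∑ p ∈ n.divisorsAntidiagonal,
        (F p.1 * (Real.log p.1 : ℂ) ^ i) * (G p.2 * (Real.log p.2 : ℂ) ^ (j - i)) := by
  simp only [Finset.mul_sum]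
  rw [Finset.sum_comm, Finset.sum_mul]
  refine Finset.sum_congr rfl fun p hp => ?_
  rw [Nat.mem_divisorsAntidiagonal] at hp
  have hp1 : p.1 ≠ 0 := fun h => hn (by rw [← hp.1, h, zero_mul])
  have hp2 : p.2 ≠ 0 := fun h => hn (by rw [← hp.1, h, mul_zero])
  have hlog : (Real.log n : ℂ) = Real.log p.1 + Real.log p.2 := by
    rw [← hp.1]
    push_cast
    rw [Real.log_mul (by exact_mod_cast hp1) (by exact_mod_cast hp2)]
    push_cast
    ring
  rw [hlog, add_pow, Finset.mul_sum]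
  refine Finset.sum_congr rfl fun i _ => ?_
  ring

private theorem RCS_s3 (g h : ℕ → ℂ) (hg : CM g) (hh : CM h) (j : ℕ) {s : ℂ} (hs : 1 < s.re) :
    LSeriesSummable (fun n => cv g h n * (Real.log n : ℂ) ^ j) s := by
  have h1 : ∀ i ∈ range (j + 1), LSeriesSummable ((Nat.choose j i : ℂ) •
      (LSeries.convolution (fun n => g n * (Real.log n : ℂ) ^ i)
        (fun n => h n * (Real.log n : ℂ) ^ (j - i)))) s := fun i _ =>
    ((RCS_s1 g hg i hs).convolution (RCS_s1 h hh (j - i) hs)).smul _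
  have h2 := LSeriesSummable.sum h1
  refine (LSeriesSummable_congr s (fun {n} hn => ?_)).mp h2
  unfold cv
  rw [RCS_pt g h j n hn]
  simp only [Finset.sum_apply, Pi.smul_apply, LSeries.convolution_def, smul_eq_mul]

private theorem RCS_s4 (g h : ℕ → ℂ) (hg : CM g) (hh : CM h) (j : ℕ) {s : ℂ} (hs : 1 < s.re) :
    LSeriesSummable (fun n => LG g h n * (Real.log n : ℂ) ^ j) s := by
  refine (LSeriesSummable_congr s (fun {n} _ => ?_)).mp ((RCS_s2 g hg j hs).add (RCS_s2 h hh j hs))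
  unfold LG
  rw [Pi.add_apply]
  ring

theorem RCS (hLGC : LGC_stmt) : RCS_stmt := by
  intro g h hg hh j s hs
  have h1 : ∀ i, DF (LG g h) i s * DF (cv g h) (j - i) s
      = LSeries (LSeries.convolution (fun n => LG g h n * (Real.log n : ℂ) ^ i)
          (fun n => cv g h n * (Real.log n : ℂ) ^ (j - i))) s := fun i =>
    (LSeries_convolution' (RCS_s4 g h hg hh i hs) (RCS_s3 g h hg hh (j - i) hs)).symm
  have h2 : ∀ i, LSeriesSummable (LSeries.convolution (fun n => LG g h n * (Real.log n : ℂ) ^ i)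
          (fun n => cv g h n * (Real.log n : ℂ) ^ (j - i))) s := fun i =>
    (RCS_s4 g h hg hh i hs).convolution (RCS_s3 g h hg hh (j - i) hs)
  have h3 : ∀ i ∈ range (j + 1), (Nat.choose j i : ℂ) * DF (LG g h) i s * DF (cv g h) (j - i) s
      = LSeries ((Nat.choose j i : ℂ) • (LSeries.convolution (fun n => LG g h n * (Real.log n : ℂ) ^ i)
          (fun n => cv g h n * (Real.log n : ℂ) ^ (j - i)))) s := by
    intro i _
    rw [LSeries_smul, ← h1, mul_assoc]
  rw [Finset.sum_congr rfl h3, ← LSeries_sum (fun i _ => (h2 i).smul _)]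
  unfold DF
  refine LSeries_congr (fun {n} hn => ?_) s
  rw [pow_succ', ← mul_assoc, hLGC g h hg hh n, RCS_pt (LG g h) (cv g h) j n hn]
  simp only [Finset.sum_apply, Pi.smul_apply, LSeries.convolution_def, smul_eq_mul]

end Pool.Agent.HK
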